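import Mathlib
import Pool.Agent.W_MP_d1e581_al.Defs
import Pool.Agent.W_MP_d1e581_al.Final

set_option autoImplicit false

namespace Pool.Agent.Results.MP_d1e581_al.PositiveDimension

open Pool.Agent.W_MP_d1e581_al

/-- There are a non-elementary word-hyperbolic group `H`, a minimal convergence action of `H` on
an infinite metrizable compactum `Z` and a Cannon-Thurston map `i : ∂H → Z` whose lamination has
an endpoint set of positive Hausdorff dimension, with respect to every visual metric on `∂H`. -/
theorem result :
    ∃ (H : Type) (_ : Group H) (S : Set H) (Z : Type) (_ : TopologicalSpace Z)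
      (_ : MulAction H Z) (i : Bdry S → Z),
      IsHyperbolicPair S ∧ IsNonElementary H ∧
      CompactSpace Z ∧ TopologicalSpace.MetrizableSpace Z ∧ ContinuousConstSMul H Z ∧
      IsConvergenceAction H Z ∧ Infinite Z ∧ (∀ z : Z, Dense (MulAction.orbit H z)) ∧
      (∃ (a : ℝ) (m : MetricSpace (Bdry S)), IsVisualMetric S a m) ∧
      (∀ (a : ℝ) (m : MetricSpace (Bdry S)), IsVisualMetric S a m →
        IsCannonThurston S m i ∧ 0 < hdim S m (endpoints S i)) :=
  ⟨F3, inferInstance, S3, Z3, inferInstance, inferInstance, ctMap, hyperbolic_S3,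
    nonElementary_F3, inferInstance, inferInstance, inferInstance, isConvergence, infinite_Z3,
    minimal_Z3, ⟨2, m3, visual_m3⟩,
    fun a m hm => ⟨cannonThurston_visual a m hm, hdim_pos a m hm⟩⟩

end Pool.Agent.Results.MP_d1e581_al.PositiveDimension
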